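import Pool.Agent.Lib.Helper37.ConjBorel.Proof

/-!
# Topological conjugacy is Borel on a dense `Gδ` set of smooth diffeomorphisms
-/

open TopologicalSpace Set Filter Topology MeasureTheory
open scoped Manifold ContDiff
open Pool.Agent.Lib.Helper37.ConjBorel

namespace Pool.Agent.Lib.Retired.MP_fffd22_an.GenericBorelConjugacy

/-- **Topological conjugacy is Borel on a dense `Gδ` set of diffeomorphisms.**

Let `M` be a closed smooth manifold of dimension `n`. Every dense `Gδ` set `R` of smooth
diffeomorphisms of `M` contains a dense `Gδ` set `S` such that the set of all pairs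
`(f, g) ∈ S × S` of topologically conjugate diffeomorphisms is a Borel subset of `S × S`. -/
theorem result (n : ℕ) (M : Type*) [TopologicalSpace M] [T2Space M] [CompactSpace M]
    [ChartedSpace (Euc n) M] [IsManifold (𝓡 n) ∞ M] (R : Set (DiffInf n M)) (hR : IsGδ R)
    (hRd : Dense R) :
    ∃ S ⊆ R, IsGδ S ∧ Dense S ∧
      MeasurableSet[borel (S × S)] {p : S × S | TopConj (p.1 : DiffInf n M) (p.2 : DiffInf n M)} :=
  main_theorem n M R hR hRd

end Pool.Agent.Lib.Retired.MP_fffd22_an.GenericBorelConjugacy
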